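import Mathlib

/-!
# The number of labels of good edge-labelings is not bounded by treewidth

We construct good graphs of treewidth at most `6` for which every good edge-labeling uses
arbitrarily many labels.

Graph `Gr K`: vertices `p` and `n_i, c_i, b_i, d_i` for `i < K`; edges `p n_i`, `c_i n_i`,
`c_i n_{i+2}`, `c_i b_i`, `c_i d_i`, `b_i n_{i+1}`, `d_i n_{i+1}`. The two four-cycles
`p n_i c_i n_{i+2}` and `c_i b_i n_{i+1} d_i` force the label of `p n_{i+1}` to lie strictly
between the labels of `p n_i` and `p n_{i+2}`.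
-/

namespace Pool.Agent.Results.MP_67e79f_co.NoBound

/-- A walk is increasing under `lam` if the labels of its edges, read in order, form a
non-decreasing sequence. -/
def Increasing {V : Type} {G : SimpleGraph V} (lam : Sym2 V → ℝ) {x y : V} (p : G.Walk x y) :
    Prop :=
  (p.edges.map lam).IsChain (· ≤ ·)

/-- `lam` is a good edge-labeling of `G`: for every ordered pair `(x, y)` there are never two
distinct increasing paths from `x` to `y`. (Only the values of `lam` on edges matter.) -/
def GoodLabeling {V : Type} (G : SimpleGraph V) (lam : Sym2 V → ℝ) : Prop :=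
  ∀ (x y : V) (p q : G.Walk x y), p.IsPath → q.IsPath → Increasing lam p → Increasing lam q →
    p = q

/-- `G` is good. -/
def Good {V : Type} (G : SimpleGraph V) : Prop := ∃ lam : Sym2 V → ℝ, GoodLabeling G lam

/-- `G` is `c`-good: it has a good edge-labeling with at most `c` distinct values. -/
def CGood {V : Type} (c : ℕ) (G : SimpleGraph V) : Prop :=
  ∃ lam : Sym2 V → ℝ, GoodLabeling G lam ∧ (lam '' G.edgeSet).ncard ≤ c

/-- `(T, bag)` is a tree decomposition of `G` of width at most `w`. -/
structure IsTreeDecomp {V ι : Type} (G : SimpleGraph V) (T : SimpleGraph ι)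
    (bag : ι → Finset V) (w : ℕ) : Prop where
  tree : T.IsTree
  vertex : ∀ v, ∃ t, v ∈ bag t
  edge : ∀ u v, G.Adj u v → ∃ t, u ∈ bag t ∧ v ∈ bag t
  conn : ∀ v, (T.induce {t | v ∈ bag t}).Connected
  width : ∀ t, (bag t).card ≤ w + 1

/-- The treewidth of a finite graph. -/
noncomputable def tw {V : Type} (G : SimpleGraph V) : ℕ :=
  sInf {w | ∃ (m : ℕ) (T : SimpleGraph (Fin m)) (bag : Fin m → Finset V),
    IsTreeDecomp G T bag w}

/-! ## The path is a tree -/

theorem path_card (m : ℕ) : Nat.card (SimpleGraph.pathGraph (m + 1)).edgeSet = m := by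
  have h : Function.Bijective (fun i : Fin m =>
      (⟨s(i.castSucc, i.succ), by
        rw [SimpleGraph.mem_edgeSet, SimpleGraph.pathGraph_adj]
        left; simp⟩ : (SimpleGraph.pathGraph (m + 1)).edgeSet)) := by
    constructor
    · intro i j hij
      have h := congrArg Subtype.val hij
      simp only [Sym2.eq_iff, Fin.ext_iff, Fin.val_castSucc, Fin.val_succ] at h
      apply Fin.ext
      omega
    · rintro ⟨e, he⟩
      induction e using Sym2.ind with
      | _ a b =>
        rw [SimpleGraph.mem_edgeSet, SimpleGraph.pathGraph_adj] at he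
        rcases he with he | he
        · refine ⟨⟨a.val, by omega⟩, ?_⟩
          apply Subtype.ext
          simp only [Sym2.eq_iff]
          left
          constructor <;> apply Fin.ext <;> simp
          omega
        · refine ⟨⟨b.val, by omega⟩, ?_⟩
          apply Subtype.ext
          simp only [Sym2.eq_iff]
          right
          constructor <;> apply Fin.ext <;> simp
          omega
  rw [← Nat.card_congr (Equiv.ofBijective _ h)]
  simp

theorem path_tree (m : ℕ) : (SimpleGraph.pathGraph (m + 1)).IsTree := by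
  rw [SimpleGraph.isTree_iff_connected_and_card]
  refine ⟨SimpleGraph.pathGraph_connected m, ?_⟩
  rw [path_card]
  simp

theorem interval_conn {m : ℕ} (S : Set (Fin m)) (hne : S.Nonempty)
    (hconv : ∀ a b c : Fin m, a ∈ S → c ∈ S → a ≤ b → b ≤ c → b ∈ S) :
    ((SimpleGraph.pathGraph m).induce S).Connected := by
  have hstep : ∀ (k : ℕ) (s t : S), t.val.val = s.val.val + k →
      ((SimpleGraph.pathGraph m).induce S).Reachable s t := by
    intro k
    induction k with
    | zero =>
      intro s t h
      have : s = t := Subtype.ext (Fin.ext (by omega))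
      rw [this]
    | succ k ih =>
      intro s t h
      have ht := t.val.isLt
      let u : Fin m := ⟨s.val.val + 1, by omega⟩
      have hu : u ∈ S := hconv s.val u t.val s.2 t.2 (by simp [Fin.le_def, u])
        (by simp only [Fin.le_def, u]; omega)
      have h1 : ((SimpleGraph.pathGraph m).induce S).Adj s ⟨u, hu⟩ := by
        rw [SimpleGraph.comap_adj]
        simp only [Function.Embedding.subtype_apply]
        rw [SimpleGraph.pathGraph_adj]
        left; simp [u]
      exact h1.reachable.trans (ih ⟨u, hu⟩ t (by simp only [u]; omega))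
  have : Nonempty S := hne.to_subtype
  refine SimpleGraph.Connected.mk ?_
  intro s t
  rcases le_total s.val.val t.val.val with h | h
  · exact hstep (t.val.val - s.val.val) s t (by omega)
  · exact (hstep (s.val.val - t.val.val) t s (by omega)).symm

/-! ## A criterion for goodness -/

section Gossip

variable {V : Type} {G : SimpleGraph V} (lab : V → V → ℕ)

/-- Strictly decreasing labels, all below `t`. -/
def DecBelow : {y x : V} → ℕ → G.Walk y x → Prop
  | _, _, _, SimpleGraph.Walk.nil => True
  | _, _, t, @SimpleGraph.Walk.cons _ _ y w _ _ q => lab y w < t ∧ DecBelow (lab y w) q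

theorem sound (σ : ℕ → V → Set V) (h0 : ∀ v, v ∈ σ 0 v)
    (hm : ∀ t v, σ t v ⊆ σ (t + 1) v)
    (hs : ∀ u v, G.Adj u v → σ (lab v u) u ⊆ σ (lab v u + 1) v) :
    ∀ {y x : V} (q : G.Walk y x) (t : ℕ), DecBelow lab t q → x ∈ σ t y := by
  have hmono : ∀ v s t, s ≤ t → σ s v ⊆ σ t v := by
    intro v s t hst
    induction hst with
    | refl => exact fun _ h => h
    | step _ ih => exact fun _ h => hm _ _ (ih h)
  intro y x q
  induction q with
  | nil => intro t _; exact hmono _ 0 t (Nat.zero_le _) (h0 _)
  | @cons y w x h q ih =>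
    intro t ht
    obtain ⟨h1, h2⟩ := ht
    exact hmono _ _ _ h1 (hs w y h.symm (ih _ h2))

theorem uniq (σ : ℕ → V → Set V) (h0 : ∀ v, v ∈ σ 0 v)
    (hm : ∀ t v, σ t v ⊆ σ (t + 1) v)
    (hs : ∀ u v, G.Adj u v → σ (lab v u) u ⊆ σ (lab v u + 1) v)
    (hd : ∀ u v, G.Adj u v → ∀ x, x ∈ σ (lab u v) u → x ∈ σ (lab u v) v → False)
    (hp : ∀ v u w, G.Adj v u → G.Adj v w → u ≠ w → lab v u ≠ lab v w) :
    ∀ {y x : V} (q q' : G.Walk y x) (t t' : ℕ), DecBelow lab t q → DecBelow lab t' q' →
      q = q' := by
  have hmono : ∀ v s t, s ≤ t → σ s v ⊆ σ t v := by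
    intro v s t hst
    induction hst with
    | refl => exact fun _ h => h
    | step _ ih => exact fun _ h => hm _ _ (ih h)
  intro y x q
  induction q with
  | nil =>
    intro q' t t' _ hq'
    cases q' with
    | nil => rfl
    | cons h q' =>
      exfalso
      obtain ⟨_, h2⟩ := hq'
      exact hd _ _ h _ (hmono _ 0 _ (Nat.zero_le _) (h0 _)) (sound lab σ h0 hm hs q' _ h2)
  | @cons y w x h q ih =>
    intro q' t t' hq hq'
    cases q' with
    | nil =>
      exfalso
      obtain ⟨_, h2⟩ := hq
      exact hd _ _ h _ (hmono _ 0 _ (Nat.zero_le _) (h0 _)) (sound lab σ h0 hm hs q _ h2)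
    | @cons _ w' _ h' q' =>
      obtain ⟨h1, h2⟩ := hq
      obtain ⟨h1', h2'⟩ := hq'
      by_cases hw : w = w'
      · subst hw
        rw [ih q' _ _ h2 h2']
      · exfalso
        have hne := hp y w w' h h' hw
        rcases Nat.lt_or_gt_of_ne hne with hlt | hlt
        · -- `q` from `y` is below the label of `h'`
          have hx : x ∈ σ (lab y w') y :=
            sound lab σ h0 hm hs (SimpleGraph.Walk.cons h q) (lab y w') ⟨hlt, h2⟩
          exact hd _ _ h' _ hx (sound lab σ h0 hm hs q' _ h2')
        · have hx : x ∈ σ (lab y w) y :=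
            sound lab σ h0 hm hs (SimpleGraph.Walk.cons h' q') (lab y w) ⟨hlt, h2'⟩
          exact hd _ _ h _ hx (sound lab σ h0 hm hs q _ h2)

theorem decBelow_of_chain (hsym : ∀ u v, lab u v = lab v u)
    (hp : ∀ v u w, G.Adj v u → G.Adj v w → u ≠ w → lab v u ≠ lab v w)
    (lam : Sym2 V → ℝ) (hlam : ∀ u v, lam s(u, v) = (lab u v : ℝ)) :
    ∀ {y x : V} (q : G.Walk y x) (t : ℕ), q.IsPath →
      (q.edges.map lam).IsChain (fun a b => b ≤ a) →
      (∀ e ∈ (q.edges.map lam).head?, e < (t : ℝ)) → DecBelow lab t q := by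
  intro y x q
  induction q with
  | nil => intro t _ _ _; trivial
  | @cons y w x h q ih =>
    intro t hpath hch hhead
    rw [SimpleGraph.Walk.edges_cons, List.map_cons] at hch hhead
    rw [SimpleGraph.Walk.cons_isPath_iff] at hpath
    have h1 : lab y w < t := by
      have := hhead (lam s(y, w)) (by simp)
      rw [hlam] at this
      exact_mod_cast this
    refine ⟨h1, ih (lab y w) hpath.1 ?_ ?_⟩
    · exact hch.tail
    · intro e he
      cases q with
      | nil => simp at he
      | @cons _ z _ h' q' =>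
        rw [SimpleGraph.Walk.edges_cons, List.map_cons] at he hch
        simp only [List.head?_cons, Option.mem_def, Option.some.injEq] at he
        rw [List.isChain_cons_cons] at hch
        have hle := hch.1
        rw [he] at hle
        subst he
        rw [hlam, hlam] at hle
        have hle' : lab w z ≤ lab y w := by exact_mod_cast hle
        have hyz : y ≠ z := by
          intro hyz
          apply hpath.2
          rw [hyz]
          simp
        have hne := hp w z y h' h.symm (Ne.symm hyz)
        rw [hsym w y] at hne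
        rw [hlam]
        have : lab w z < lab y w := lt_of_le_of_ne hle' hne
        exact_mod_cast this

theorem good_of_gossip (hsym : ∀ u v, lab u v = lab v u)
    (σ : ℕ → V → Set V) (h0 : ∀ v, v ∈ σ 0 v)
    (hm : ∀ t v, σ t v ⊆ σ (t + 1) v)
    (hs : ∀ u v, G.Adj u v → σ (lab v u) u ⊆ σ (lab v u + 1) v)
    (hd : ∀ u v, G.Adj u v → ∀ x, x ∈ σ (lab u v) u → x ∈ σ (lab u v) v → False)
    (hp : ∀ v u w, G.Adj v u → G.Adj v w → u ≠ w → lab v u ≠ lab v w)
    (lam : Sym2 V → ℝ) (hlam : ∀ u v, lam s(u, v) = (lab u v : ℝ)) (T : ℕ)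
    (hT : ∀ u v, lab u v < T) : GoodLabeling G lam := by
  have key : ∀ {x y : V} (p : G.Walk x y), p.IsPath → Increasing lam p →
      DecBelow lab T p.reverse := by
    intro x y p hp1 hp2
    apply decBelow_of_chain lab hsym hp lam hlam
    · exact hp1.reverse
    · rw [SimpleGraph.Walk.edges_reverse, List.map_reverse, List.isChain_reverse]
      exact hp2
    · intro e he
      have hmem : e ∈ p.reverse.edges.map lam := List.mem_of_mem_head? he
      rw [List.mem_map] at hmem
      obtain ⟨a, _, rfl⟩ := hmem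
      induction a using Sym2.ind with
      | _ u v =>
        rw [hlam]
        exact_mod_cast hT u v
  intro x y p q hp1 hq1 hp2 hq2
  have h := uniq lab σ h0 hm hs hd hp p.reverse q.reverse T T (key p hp1 hp2) (key q hq1 hq2)
  have h' := congrArg SimpleGraph.Walk.reverse h
  simpa using h'

end Gossip

/-! ## The graphs -/

/-- Vertices. -/
inductive Vt (K : ℕ)
  | p : Vt K
  | n (i : Fin K) : Vt K
  | c (i : Fin K) : Vt K
  | b (i : Fin K) : Vt K
  | d (i : Fin K) : Vt K
deriving DecidableEq, Fintype

/-- One direction of the adjacency. -/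
def half {K : ℕ} : Vt K → Vt K → Prop
  | .p, .n _ => True
  | .c i, .n j => j.val = i.val ∨ j.val = i.val + 2
  | .c i, .b j => j.val = i.val
  | .c i, .d j => j.val = i.val
  | .b i, .n j => j.val = i.val + 1
  | .d i, .n j => j.val = i.val + 1
  | _, _ => False

/-- The graph. -/
def Gr (K : ℕ) : SimpleGraph (Vt K) where
  Adj u v := half u v ∨ half v u
  symm := ⟨fun _ _ h => h.symm⟩
  loopless := ⟨fun u h => by cases u <;> simp [half] at h⟩

/-- One direction of the labeling. -/
def hl {K : ℕ} : Vt K → Vt K → ℕ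
  | .p, .n j => j.val + 2
  | .c i, .n j => if j.val = i.val then K + 2 else 1
  | .c _, .b _ => 0
  | .c _, .d _ => K + 3
  | .b _, .n _ => K + 3
  | .d _, .n _ => 0
  | _, _ => 0

/-- The labeling. -/
def lab {K : ℕ} (u v : Vt K) : ℕ := hl u v + hl v u

/-- The labeling as a map on unordered pairs. -/
noncomputable def lamG (K : ℕ) : Sym2 (Vt K) → ℝ :=
  Sym2.lift ⟨fun u v => (lab u v : ℝ), fun u v => by simp [lab, add_comm]⟩

/-- Component index after the first two rounds. -/
def ka {K : ℕ} : Vt K → ℕ
  | .p => 0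
  | .n j => j.val + 1
  | .c i => i.val + 3
  | .b i => i.val + 3
  | .d i => i.val + 2

/-- Component index after the first round. -/
def kb {K : ℕ} : Vt K → ℕ × ℕ
  | .p => (0, 0)
  | .n j => (1, j.val)
  | .c i => (2, i.val)
  | .b i => (2, i.val)
  | .d i => (1, i.val + 1)

/-- Middle rounds. -/
def mid {K : ℕ} (t : ℕ) : Vt K → ℕ → Prop
  | .p, m => m + 2 ≤ t
  | .n j, m => if j.val + 2 < t then m ≤ j.val + 1 else m = j.val + 1
  | .c i, m => m = i.val + 3
  | .b i, m => m = i.val + 3
  | .d i, m => m = i.val + 2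

/-- Last round. -/
def late {K : ℕ} : Vt K → ℕ → Prop
  | .p, _ => True
  | .n j, m => m ≤ j.val + 1 ∨ m = j.val + 3
  | .c i, m => m ≤ i.val + 1 ∨ m = i.val + 3
  | .b i, m => m = i.val + 3
  | .d i, m => m = i.val + 2

/-- Upper bounds for the information sets. -/
def sig {K : ℕ} (t : ℕ) (v : Vt K) : Set (Vt K) :=
  {w | if t = 0 then w = v else if t = 1 then kb w = kb v else
    if t ≤ K + 2 then mid t v (ka w) else if t = K + 3 then late v (ka w) else True}

theorem sig_zero {K : ℕ} (v w : Vt K) : w ∈ sig 0 v ↔ w = v := by simp [sig]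

theorem sig_one {K : ℕ} (v w : Vt K) : w ∈ sig 1 v ↔ kb w = kb v := by simp [sig]

theorem sig_mid {K t : ℕ} (h1 : 2 ≤ t) (h2 : t ≤ K + 2) (v w : Vt K) :
    w ∈ sig t v ↔ mid t v (ka w) := by
  have a : t ≠ 0 := by omega
  have b : t ≠ 1 := by omega
  simp [sig, a, b, h2]

theorem sig_late {K : ℕ} (v w : Vt K) : w ∈ sig (K + 3) v ↔ late v (ka w) := by
  simp [sig]

theorem sig_top {K t : ℕ} (h : K + 4 ≤ t) (v w : Vt K) : w ∈ sig t v := by
  have a : t ≠ 0 := by omega
  have b : t ≠ 1 := by omega
  have c : ¬ t ≤ K + 2 := by omega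
  have d : t ≠ K + 3 := by omega
  simp [sig, a, b, c, d]

theorem kb_ka {K : ℕ} {v w : Vt K} (h : kb w = kb v) : ka w = ka v := by
  cases v <;> cases w <;> simp_all [kb, ka]

theorem sig_mono {K : ℕ} (t : ℕ) (v : Vt K) : sig t v ⊆ sig (t + 1) v := by
  intro w hw
  rcases Nat.lt_or_ge t 1 with h | h
  · have : t = 0 := by omega
    subst this
    rw [sig_zero] at hw
    rw [sig_one, hw]
  rcases Nat.lt_or_ge t 2 with h | h
  · have : t = 1 := by omega
    subst this
    rw [sig_one] at hw
    rw [sig_mid (by omega) (by omega), kb_ka hw]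
    cases v <;> simp [mid, ka]
  rcases Nat.lt_or_ge t (K + 2) with h' | h'
  · rw [sig_mid (by omega) (by omega)] at hw ⊢
    cases v <;> simp only [mid] at hw ⊢ <;> (try split_ifs at hw ⊢) <;> omega
  rcases Nat.lt_or_ge t (K + 3) with h'' | h''
  · have : t = K + 2 := by omega
    subst this
    rw [sig_mid (by omega) (by omega)] at hw
    rw [sig_late]
    cases v <;> simp only [mid, late] at hw ⊢ <;> (try split_ifs at hw ⊢) <;> omega
  · exact sig_top (by omega) v w

theorem edge_ok {K : ℕ} (u v : Vt K) (h : half u v) :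
    (∀ w, w ∈ sig (hl u v) u → w ∈ sig (hl u v + 1) v) ∧
    (∀ w, w ∈ sig (hl u v) v → w ∈ sig (hl u v + 1) u) ∧
    (∀ w, w ∈ sig (hl u v) u → w ∈ sig (hl u v) v → False) := by
  rcases u with _ | i | i | i | i <;> rcases v with _ | j | j | j | j <;>
    simp only [half] at h
  · -- p n_j
    have hj := j.isLt
    simp only [hl]
    refine ⟨?_, ?_, ?_⟩ <;> intro w
    · rw [sig_mid (by omega) (by omega), sig_mid (by omega) (by omega)]
      simp only [mid]
      split_ifs <;> omega
    · rw [sig_mid (by omega) (by omega), sig_mid (by omega) (by omega)]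
      simp only [mid]
      split_ifs <;> omega
    · rw [sig_mid (by omega) (by omega), sig_mid (by omega) (by omega)]
      simp only [mid]
      split_ifs <;> omega
  · -- c_i n_j
    have hj := j.isLt
    have hi := i.isLt
    simp only [hl]
    rcases h with h | h
    · rw [if_pos h]
      refine ⟨?_, ?_, ?_⟩ <;> intro w
      · rw [sig_mid (by omega) (by omega), show K + 2 + 1 = K + 3 from rfl, sig_late]
        simp only [mid, late]
        omega
      · rw [sig_mid (by omega) (by omega), show K + 2 + 1 = K + 3 from rfl, sig_late]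
        simp only [mid, late]
        split_ifs <;> omega
      · rw [sig_mid (by omega) (by omega), sig_mid (by omega) (by omega)]
        simp only [mid]
        split_ifs <;> omega
    · rw [if_neg (by omega)]
      refine ⟨?_, ?_, ?_⟩ <;> intro w
      · rw [sig_one, show 1 + 1 = 2 from rfl, sig_mid (by omega) (by omega)]
        intro hw
        rw [kb_ka hw]
        simp only [mid, ka]
        split_ifs <;> omega
      · rw [sig_one, show 1 + 1 = 2 from rfl, sig_mid (by omega) (by omega)]
        intro hw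
        rw [kb_ka hw]
        simp only [mid, ka]
        omega
      · rw [sig_one, sig_one]
        intro h1 h2
        rw [h1] at h2
        simp [kb] at h2
  · -- c_i b_j
    simp only [hl]
    refine ⟨?_, ?_, ?_⟩ <;> intro w
    · rw [sig_zero, zero_add, sig_one]
      rintro rfl
      simp [kb, h]
    · rw [sig_zero, zero_add, sig_one]
      rintro rfl
      simp [kb, h]
    · rw [sig_zero, sig_zero]
      rintro rfl h2
      simp at h2
  · -- c_i d_j
    simp only [hl]
    refine ⟨?_, ?_, ?_⟩ <;> intro w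
    · intro _
      exact sig_top (by omega) _ _
    · intro _
      exact sig_top (by omega) _ _
    · rw [sig_late, sig_late]
      simp only [late]
      omega
  · -- b_i n_j
    simp only [hl]
    refine ⟨?_, ?_, ?_⟩ <;> intro w
    · intro _
      exact sig_top (by omega) _ _
    · intro _
      exact sig_top (by omega) _ _
    · rw [sig_late, sig_late]
      simp only [late]
      omega
  · -- d_i n_j
    simp only [hl]
    refine ⟨?_, ?_, ?_⟩ <;> intro w
    · rw [sig_zero, zero_add, sig_one]
      rintro rfl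
      simp [kb, h]
    · rw [sig_zero, zero_add, sig_one]
      rintro rfl
      simp [kb, h]
    · rw [sig_zero, sig_zero]
      rintro rfl h2
      simp at h2

theorem lab_half {K : ℕ} {u v : Vt K} (h : half u v) : lab u v = hl u v := by
  cases u <;> cases v <;> simp_all [half, lab, hl]

theorem lab_symm {K : ℕ} (u v : Vt K) : lab u v = lab v u := by
  simp [lab, add_comm]

theorem sig_step {K : ℕ} (u v : Vt K) (h : (Gr K).Adj u v) :
    sig (lab v u) u ⊆ sig (lab v u + 1) v := by
  rcases h with h | h
  · rw [lab_symm, lab_half h]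
    exact (edge_ok u v h).1
  · rw [lab_half h]
    exact (edge_ok v u h).2.1

theorem sig_disj {K : ℕ} (u v : Vt K) (h : (Gr K).Adj u v) (x : Vt K)
    (h1 : x ∈ sig (lab u v) u) (h2 : x ∈ sig (lab u v) v) : False := by
  rcases h with h | h
  · rw [lab_half h] at h1 h2
    exact (edge_ok u v h).2.2 x h1 h2
  · rw [lab_symm, lab_half h] at h1 h2
    exact (edge_ok v u h).2.2 x h2 h1

theorem lab_proper {K : ℕ} (v u w : Vt K) (h1 : (Gr K).Adj v u) (h2 : (Gr K).Adj v w)
    (hne : u ≠ w) : lab v u ≠ lab v w := by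
  rcases v with _ | v | v | v | v <;> rcases u with _ | u | u | u | u <;>
    rcases w with _ | w | w | w | w <;>
    simp only [Gr, half, or_self, or_false, false_or] at h1 h2 <;>
    simp only [ne_eq, Vt.n.injEq, Vt.c.injEq, Vt.b.injEq, Vt.d.injEq, Fin.ext_iff,
      reduceCtorEq, not_false_eq_true, not_true_eq_false] at hne <;>
    simp only [lab, hl, zero_add, add_zero] <;> (try split_ifs) <;> omega

theorem lab_lt {K : ℕ} (u v : Vt K) : lab u v < K + 4 := by
  rcases v with _ | v | v | v | v <;> rcases u with _ | u | u | u | u <;>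
    simp only [lab, hl, zero_add, add_zero] <;> (try split_ifs) <;> omega

theorem good_Gr (K : ℕ) : Good (Gr K) :=
  ⟨lamG K, good_of_gossip lab lab_symm sig (fun v => (sig_zero v v).mpr rfl) sig_mono sig_step
    sig_disj lab_proper (lamG K) (fun _ _ => rfl) (K + 4) lab_lt⟩

/-! ## Every good labeling uses many labels -/

section Lower

variable {V : Type} {G : SimpleGraph V} {lam : Sym2 V → ℝ}

theorem no22 (hG : GoodLabeling G lam) {x y u v : V} (hxu : G.Adj x u) (huy : G.Adj u y)
    (hxv : G.Adj x v) (hvy : G.Adj v y) (huv : u ≠ v) (hxy : x ≠ y)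
    (h1 : lam s(x, u) ≤ lam s(u, y)) (h2 : lam s(x, v) ≤ lam s(v, y)) : False := by
  let p : G.Walk x y := SimpleGraph.Walk.cons hxu (SimpleGraph.Walk.cons huy .nil)
  let q : G.Walk x y := SimpleGraph.Walk.cons hxv (SimpleGraph.Walk.cons hvy .nil)
  have hp : p.IsPath := by
    simp only [p, SimpleGraph.Walk.cons_isPath_iff, SimpleGraph.Walk.support_cons,
      SimpleGraph.Walk.support_nil, List.mem_cons, List.not_mem_nil, or_false, not_or]
    exact ⟨⟨SimpleGraph.Walk.IsPath.nil, huy.ne⟩, hxu.ne, hxy⟩
  have hq : q.IsPath := by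
    simp only [q, SimpleGraph.Walk.cons_isPath_iff, SimpleGraph.Walk.support_cons,
      SimpleGraph.Walk.support_nil, List.mem_cons, List.not_mem_nil, or_false, not_or]
    exact ⟨⟨SimpleGraph.Walk.IsPath.nil, hvy.ne⟩, hxv.ne, hxy⟩
  have hpi : Increasing lam p := by
    simp only [Increasing, p, SimpleGraph.Walk.edges_cons, SimpleGraph.Walk.edges_nil,
      List.map_cons, List.map_nil, List.isChain_cons_cons, List.isChain_singleton, and_true]
    exact h1
  have hqi : Increasing lam q := by
    simp only [Increasing, q, SimpleGraph.Walk.edges_cons, SimpleGraph.Walk.edges_nil,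
      List.map_cons, List.map_nil, List.isChain_cons_cons, List.isChain_singleton, and_true]
    exact h2
  have h := hG x y p q hp hq hpi hqi
  have h' := congrArg SimpleGraph.Walk.support h
  simp only [p, q, SimpleGraph.Walk.support_cons, SimpleGraph.Walk.support_nil,
    List.cons.injEq, and_true, true_and] at h'
  exact huv h'

theorem no23 (hG : GoodLabeling G lam) {x y u v w : V} (hxu : G.Adj x u) (huy : G.Adj u y)
    (hxv : G.Adj x v) (hvw : G.Adj v w) (hwy : G.Adj w y) (hxw : x ≠ w) (hvy : v ≠ y)
    (hxy : x ≠ y) (h1 : lam s(x, u) ≤ lam s(u, y)) (h2 : lam s(x, v) ≤ lam s(v, w))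
    (h3 : lam s(v, w) ≤ lam s(w, y)) : False := by
  let p : G.Walk x y := SimpleGraph.Walk.cons hxu (SimpleGraph.Walk.cons huy .nil)
  let q : G.Walk x y := SimpleGraph.Walk.cons hxv
    (SimpleGraph.Walk.cons hvw (SimpleGraph.Walk.cons hwy .nil))
  have hp : p.IsPath := by
    simp only [p, SimpleGraph.Walk.cons_isPath_iff, SimpleGraph.Walk.support_cons,
      SimpleGraph.Walk.support_nil, List.mem_cons, List.not_mem_nil, or_false, not_or]
    exact ⟨⟨SimpleGraph.Walk.IsPath.nil, huy.ne⟩, hxu.ne, hxy⟩
  have hq : q.IsPath := by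
    simp only [q, SimpleGraph.Walk.cons_isPath_iff, SimpleGraph.Walk.support_cons,
      SimpleGraph.Walk.support_nil, List.mem_cons, List.not_mem_nil, or_false, not_or]
    exact ⟨⟨⟨SimpleGraph.Walk.IsPath.nil, hwy.ne⟩, hvw.ne, hvy⟩, hxv.ne, hxw, hxy⟩
  have hpi : Increasing lam p := by
    simp only [Increasing, p, SimpleGraph.Walk.edges_cons, SimpleGraph.Walk.edges_nil,
      List.map_cons, List.map_nil, List.isChain_cons_cons, List.isChain_singleton, and_true]
    exact h1
  have hqi : Increasing lam q := by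
    simp only [Increasing, q, SimpleGraph.Walk.edges_cons, SimpleGraph.Walk.edges_nil,
      List.map_cons, List.map_nil, List.isChain_cons_cons, List.isChain_singleton, and_true]
    exact ⟨h2, h3⟩
  have h := hG x y p q hp hq hpi hqi
  have h' := congrArg SimpleGraph.Walk.length h
  simp [p, q] at h'

/-- In a four-cycle `x a y b`, opposite edges are paired by size. -/
theorem four_cycle (hG : GoodLabeling G lam) {x a y b : V} (hxa : G.Adj x a) (hay : G.Adj a y)
    (hyb : G.Adj y b) (hbx : G.Adj b x) (hab : a ≠ b) (hxy : x ≠ y) :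
    (lam s(x, a) < lam s(a, y) ∧ lam s(y, b) < lam s(b, x) ∧ lam s(x, a) < lam s(b, x) ∧
      lam s(y, b) < lam s(a, y)) ∨
    (lam s(a, y) < lam s(x, a) ∧ lam s(b, x) < lam s(y, b) ∧ lam s(b, x) < lam s(x, a) ∧
      lam s(a, y) < lam s(y, b)) := by
  have e1 : s(x, a) = s(a, x) := Sym2.eq_swap
  have e2 : s(a, y) = s(y, a) := Sym2.eq_swap
  have e3 : s(y, b) = s(b, y) := Sym2.eq_swap
  have e4 : s(b, x) = s(x, b) := Sym2.eq_swap
  have c1 := no22 hG hxa hay hbx.symm hyb.symm hab hxy
  have c2 := no22 hG hay.symm hxa.symm hyb hbx hab hxy.symm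
  have c3 := no22 hG hxa.symm hbx.symm hay hyb hxy hab
  have c4 := no22 hG hbx hxa hyb.symm hay.symm hxy hab.symm
  rw [← e4, ← e3] at c1
  rw [← e2, ← e1] at c2
  rw [← e1, ← e4] at c3
  rw [← e3, ← e2] at c4
  by_cases h1 : lam s(x, a) ≤ lam s(a, y)
  · have h2 : lam s(y, b) < lam s(b, x) := by
      by_contra h
      exact c1 h1 (not_lt.mp h)
    have h3 : lam s(x, a) < lam s(a, y) := by
      by_contra h
      exact c2 (not_lt.mp h) h2.le
    by_cases h4 : lam s(a, y) ≤ lam s(y, b)
    · exfalso
      have h5 : lam s(b, x) < lam s(x, a) := by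
        by_contra h
        exact c3 (not_lt.mp h) h4
      linarith
    · have h4' := not_le.mp h4
      left
      refine ⟨h3, h2, ?_, h4'⟩
      by_contra h
      exact c4 (not_lt.mp h) h4'.le
  · have h1' := not_le.mp h1
    have h2 : lam s(b, x) < lam s(y, b) := by
      by_contra h
      exact c2 h1'.le (not_lt.mp h)
    by_cases h4 : lam s(y, b) ≤ lam s(a, y)
    · exfalso
      have h5 : lam s(x, a) < lam s(b, x) := by
        by_contra h
        exact c4 (not_lt.mp h) h4
      linarith
    · have h4' := not_le.mp h4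
      right
      refine ⟨h1', h2, ?_, h4'⟩
      by_contra h
      exact c3 (not_lt.mp h) h4'.le

/-- The betweenness gadget. -/
theorem between (hG : GoodLabeling G lam) {p a c z u w m : V} (hpa : G.Adj p a)
    (haz : G.Adj a z) (hzc : G.Adj z c) (hcp : G.Adj c p) (hac : a ≠ c) (hpz : p ≠ z)
    (hpm : G.Adj p m) (hzu : G.Adj z u) (hum : G.Adj u m) (hmw : G.Adj m w)
    (hwz : G.Adj w z) (huw : u ≠ w) (hzm : z ≠ m) (ham : a ≠ m) (hcm : c ≠ m) :
    (lam s(p, a) < lam s(p, m) ∧ lam s(p, m) < lam s(p, c)) ∨
    (lam s(p, c) < lam s(p, m) ∧ lam s(p, m) < lam s(p, a)) := by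
  have C1 := four_cycle hG hpa haz hzc hcp hac hpz
  have C2 := four_cycle hG hzu hum hmw hwz huw hzm
  have e1 : s(c, p) = s(p, c) := Sym2.eq_swap
  have e2 : s(p, m) = s(m, p) := Sym2.eq_swap
  have e3 : s(z, c) = s(c, z) := Sym2.eq_swap
  have e4 : s(a, z) = s(z, a) := Sym2.eq_swap
  have e5 : s(p, a) = s(a, p) := Sym2.eq_swap
  have e6 : s(u, m) = s(m, u) := Sym2.eq_swap
  have e7 : s(z, u) = s(u, z) := Sym2.eq_swap
  have e8 : s(m, w) = s(w, m) := Sym2.eq_swap
  have e9 : s(w, z) = s(z, w) := Sym2.eq_swap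
  -- one of the two middle vertices gives an increasing path from `m` to `z`,
  -- the other one an increasing path from `z` to `m`
  have key : ∃ s t, G.Adj m s ∧ G.Adj s z ∧ lam s(m, s) ≤ lam s(s, z) ∧
      G.Adj z t ∧ G.Adj t m ∧ lam s(z, t) ≤ lam s(t, m) := by
    rcases C2 with ⟨g1, g2, _, _⟩ | ⟨g1, g2, _, _⟩
    · exact ⟨w, u, hmw, hwz, g2.le, hzu, hum, g1.le⟩
    · refine ⟨u, w, hum.symm, hzu.symm, ?_, hwz.symm, hmw.symm, ?_⟩
      · rw [← e6, ← e7]; exact g1.le
      · rw [← e9, ← e8]; exact g2.le
  obtain ⟨s, t, hms, hsz, hs, hzt, htm, ht⟩ := key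
  rcases C1 with ⟨g1, g2, _, _⟩ | ⟨g1, g2, _, _⟩
  · left
    constructor
    · by_contra hcon
      -- m p a z increasing
      refine no23 hG hms hsz hpm.symm hpa haz ham.symm hpz hzm.symm hs ?_ g1.le
      rw [← e2]; exact not_lt.mp hcon
    · by_contra hcon
      -- z c p m increasing
      refine no23 hG hzt htm hzc hcp hpm hpz.symm hcm hzm ht g2.le ?_
      rw [e1]; exact not_lt.mp hcon
  · right
    constructor
    · by_contra hcon
      -- m p c z increasing
      refine no23 hG hms hsz hpm.symm hcp.symm hzc.symm hcm.symm hpz hzm.symm hs ?_ ?_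
      · rw [← e2]; exact not_lt.mp hcon
      · rw [← e1, ← e3]; exact g2.le
    · by_contra hcon
      -- z a p m increasing
      refine no23 hG hzt htm haz.symm hpa.symm hpm hpz.symm ham hzm ht ?_ ?_
      · rw [← e4, ← e5]; exact g1.le
      · rw [← e5]; exact not_lt.mp hcon

end Lower

theorem between_Gr {K : ℕ} {lam : Sym2 (Vt K) → ℝ} (hG : GoodLabeling (Gr K) lam) (i : ℕ)
    (hi : i + 2 < K) :
    (lam s(.p, .n ⟨i, by omega⟩) < lam s(.p, .n ⟨i + 1, by omega⟩) ∧
      lam s(.p, .n ⟨i + 1, by omega⟩) < lam s(.p, .n ⟨i + 2, hi⟩)) ∨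
    (lam s(.p, .n ⟨i + 2, hi⟩) < lam s(.p, .n ⟨i + 1, by omega⟩) ∧
      lam s(.p, .n ⟨i + 1, by omega⟩) < lam s(.p, .n ⟨i, by omega⟩)) :=
  between hG (p := Vt.p) (a := .n ⟨i, by omega⟩) (c := .n ⟨i + 2, hi⟩)
    (z := .c ⟨i, by omega⟩) (u := .b ⟨i, by omega⟩) (w := .d ⟨i, by omega⟩)
    (m := .n ⟨i + 1, by omega⟩)
    (by simp [Gr, half]) (by simp [Gr, half]) (by simp [Gr, half]) (by simp [Gr, half])
    (by simp) (by simp) (by simp [Gr, half]) (by simp [Gr, half]) (by simp [Gr, half])
    (by simp [Gr, half]) (by simp [Gr, half]) (by simp) (by simp) (by simp) (by simp)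

theorem many_labels {K : ℕ} (hK : 3 ≤ K) {lam : Sym2 (Vt K) → ℝ}
    (hG : GoodLabeling (Gr K) lam) : K ≤ (lam '' (Gr K).edgeSet).ncard := by
  set X : Fin K → ℝ := fun j => lam s(.p, .n j) with hX
  have hb : ∀ (i : ℕ) (hi : i + 2 < K),
      (X ⟨i, by omega⟩ < X ⟨i + 1, by omega⟩ ∧ X ⟨i + 1, by omega⟩ < X ⟨i + 2, hi⟩) ∨
      (X ⟨i + 2, hi⟩ < X ⟨i + 1, by omega⟩ ∧ X ⟨i + 1, by omega⟩ < X ⟨i, by omega⟩) :=
    fun i hi => between_Gr hG i hi
  have hinj : Function.Injective X := by
    have h01 := hb 0 (by omega)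
    rcases h01 with ⟨h01, _⟩ | ⟨_, h01⟩
    · have hstep : ∀ (i : ℕ) (hi : i + 1 < K), X ⟨i, by omega⟩ < X ⟨i + 1, hi⟩ := by
        intro i
        induction i with
        | zero => intro _; exact h01
        | succ i ih =>
          intro hi
          have h := ih (by omega)
          rcases hb i hi with h' | h'
          · exact h'.2
          · exact absurd h (not_lt.mpr h'.2.le)
      have hlt : ∀ (k i : ℕ) (hk : i + (k + 1) < K), X ⟨i, by omega⟩ < X ⟨i + (k + 1), hk⟩ := by
        intro k
        induction k with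
        | zero => intro i hk; exact hstep i hk
        | succ k ih => intro i hk; exact (ih i (by omega)).trans (hstep _ hk)
      intro a b hab
      rcases lt_trichotomy a.val b.val with h | h | h
      · obtain ⟨k, hk⟩ : ∃ k, b.val = a.val + (k + 1) := ⟨b.val - a.val - 1, by omega⟩
        have h' := hlt k a.val (by omega)
        have hb' : (⟨a.val + (k + 1), by omega⟩ : Fin K) = b := Fin.ext hk.symm
        rw [hb'] at h'
        exact absurd hab h'.ne
      · exact Fin.ext h
      · obtain ⟨k, hk⟩ : ∃ k, a.val = b.val + (k + 1) := ⟨a.val - b.val - 1, by omega⟩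
        have h' := hlt k b.val (by omega)
        have hb' : (⟨b.val + (k + 1), by omega⟩ : Fin K) = a := Fin.ext hk.symm
        rw [hb'] at h'
        exact absurd hab.symm h'.ne
    · have hstep : ∀ (i : ℕ) (hi : i + 1 < K), X ⟨i + 1, hi⟩ < X ⟨i, by omega⟩ := by
        intro i
        induction i with
        | zero => intro _; exact h01
        | succ i ih =>
          intro hi
          have h := ih (by omega)
          rcases hb i hi with h' | h'
          · exact absurd h (not_lt.mpr h'.1.le)
          · exact h'.1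
      have hlt : ∀ (k i : ℕ) (hk : i + (k + 1) < K), X ⟨i + (k + 1), hk⟩ < X ⟨i, by omega⟩ := by
        intro k
        induction k with
        | zero => intro i hk; exact hstep i hk
        | succ k ih => intro i hk; exact (hstep _ hk).trans (ih i (by omega))
      intro a b hab
      rcases lt_trichotomy a.val b.val with h | h | h
      · obtain ⟨k, hk⟩ : ∃ k, b.val = a.val + (k + 1) := ⟨b.val - a.val - 1, by omega⟩
        have h' := hlt k a.val (by omega)
        have hb' : (⟨a.val + (k + 1), by omega⟩ : Fin K) = b := Fin.ext hk.symm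
        rw [hb'] at h'
        exact absurd hab.symm h'.ne
      · exact Fin.ext h
      · obtain ⟨k, hk⟩ : ∃ k, a.val = b.val + (k + 1) := ⟨a.val - b.val - 1, by omega⟩
        have h' := hlt k b.val (by omega)
        have hb' : (⟨b.val + (k + 1), by omega⟩ : Fin K) = a := Fin.ext hk.symm
        rw [hb'] at h'
        exact absurd hab h'.ne
  have hsub : Set.range X ⊆ lam '' (Gr K).edgeSet := by
    rintro _ ⟨j, rfl⟩
    exact ⟨s(.p, .n j), by simp [Gr, half], rfl⟩
  calc K = Nat.card (Fin K) := by simp
    _ = (Set.range X).ncard := by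
        rw [← Set.image_univ, Set.ncard_image_of_injective _ hinj, Set.ncard_univ]
    _ ≤ _ := Set.ncard_le_ncard hsub (Set.toFinite _)

/-! ## Treewidth -/

/-- The bags. -/
def inBag {K : ℕ} (t : Fin K) : Vt K → Prop
  | .p => True
  | .n j => t.val ≤ j.val ∧ j.val ≤ t.val + 2
  | .c i => i = t
  | .b i => i = t
  | .d i => i = t

/-- Codes used to bound the sizes of the bags. -/
def code {K : ℕ} (t : Fin K) : Vt K → ℕ
  | .p => 0
  | .n j => 1 + (j.val - t.val)
  | .c _ => 4
  | .b _ => 5
  | .d _ => 6

open Classical in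
theorem decomp (m : ℕ) : IsTreeDecomp (Gr (m + 1)) (SimpleGraph.pathGraph (m + 1))
    (fun t => Finset.univ.filter (fun v => inBag t v)) 6 where
  tree := path_tree m
  vertex := by
    intro v
    rcases v with _ | v | v | v | v
    · exact ⟨0, by simp [inBag]⟩
    · exact ⟨v, by simp [inBag]⟩
    · exact ⟨v, by simp [inBag]⟩
    · exact ⟨v, by simp [inBag]⟩
    · exact ⟨v, by simp [inBag]⟩
  edge := by
    have key : ∀ u v : Vt (m + 1), half u v → ∃ t, inBag t u ∧ inBag t v := by
      intro u v h
      rcases u with _ | i | i | i | i <;> rcases v with _ | j | j | j | j <;>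
        simp only [half] at h
      · exact ⟨j, by simp [inBag], by simp [inBag]⟩
      · exact ⟨i, by simp [inBag], by simp only [inBag]; omega⟩
      · exact ⟨i, by simp [inBag], Fin.ext h⟩
      · exact ⟨i, by simp [inBag], Fin.ext h⟩
      · exact ⟨i, by simp [inBag], by simp only [inBag]; omega⟩
      · exact ⟨i, by simp [inBag], by simp only [inBag]; omega⟩
    intro u v h
    rcases h with h | h
    · obtain ⟨t, h1, h2⟩ := key u v h
      exact ⟨t, by simp [h1], by simp [h2]⟩
    · obtain ⟨t, h1, h2⟩ := key v u h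
      exact ⟨t, by simp [h2], by simp [h1]⟩
  conn := by
    intro v
    apply interval_conn
    · rcases v with _ | v | v | v | v
      · exact ⟨0, by simp [inBag]⟩
      · exact ⟨v, by simp [inBag]⟩
      · exact ⟨v, by simp [inBag]⟩
      · exact ⟨v, by simp [inBag]⟩
      · exact ⟨v, by simp [inBag]⟩
    · intro a b c ha hc hab hbc
      simp only [Finset.mem_filter, Finset.mem_univ, true_and, Set.mem_ofPred_eq] at ha hc ⊢
      rw [Fin.le_def] at hab hbc
      rcases v with _ | v | v | v | v <;>
        simp only [inBag, Fin.ext_iff] at ha hc ⊢ <;> omega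
  width := by
    intro t
    have : (Finset.univ.filter (fun v => inBag t v)).card ≤ (Finset.range 7).card := by
      apply Finset.card_le_card_of_injOn (code t)
      · intro v hv
        simp only [Finset.coe_filter, Finset.mem_univ, true_and, Set.mem_ofPred_eq] at hv
        simp only [Finset.coe_range, Set.mem_Iio]
        rcases v with _ | v | v | v | v <;> simp only [inBag, code] at hv ⊢ <;> omega
      · intro v hv w hw h
        simp only [Finset.coe_filter, Finset.mem_univ, true_and, Set.mem_ofPred_eq] at hv hw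
        rcases v with _ | v | v | v | v <;> rcases w with _ | w | w | w | w <;>
          simp only [inBag, code] at hv hw h <;>
          first
            | rfl
            | (exfalso; omega)
            | (rw [hv, hw])
            | (congr 1; apply Fin.ext; omega)
    simpa using this

theorem tw_le (m : ℕ) : tw (Gr (m + 1)) ≤ 6 :=
  Nat.sInf_le ⟨m + 1, _, _, decomp m⟩

/-- **Main theorem.** There is no function `f` such that every good finite graph `G` is
`f(tw(G))`-good. -/
theorem result : ¬ ∃ f : ℕ → ℕ, ∀ (V : Type) [Fintype V] (G : SimpleGraph V),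
    Good G → CGood (f (tw G)) G := by
  rintro ⟨f, hf⟩
  obtain ⟨lam, hlam, hcard⟩ := hf (Vt ((Finset.range 7).sup f + 3)) (Gr _) (good_Gr _)
  have h1 := many_labels (by omega) hlam
  have h2 : f (tw (Gr ((Finset.range 7).sup f + 3))) ≤ (Finset.range 7).sup f :=
    Finset.le_sup (Finset.mem_range.mpr (Nat.lt_succ_of_le (tw_le _)))
  omega

end Pool.Agent.Results.MP_67e79f_co.NoBound
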